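import Pool.Agent.helper81.DI.SpecB

/-! B7: an invariant irreducible character of `K` extends to `H` if `H / K` is cyclic. -/

set_option autoImplicit false

namespace Pool.Agent.DI

open Pool.Agent.helper58.DC

/-- extension of a homomorphism from a normal subgroup with cyclic quotient -/
theorem B7_ext {H Γ : Type*} [Group H] [Group Γ] (K : Subgroup H) (hK : K.Normal) (R : K →* Γ)
    (s : H) (T : Γ) (ha : ∀ x : H, ∃ k : ℤ, s ^ k * x ∈ K)
    (hb : ∀ n : K, T * R n * T⁻¹ = R ⟨s * n * s⁻¹, hK.conj_mem _ n.2 s⟩)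
    (hc : ∀ (j : ℤ) (hj : s ^ j ∈ K), T ^ j = R ⟨s ^ j, hj⟩) :
    ∃ F : H →* Γ, ∀ n : K, F n = R n := by
  -- powers
  let D : Subgroup (H × Γ) :=
    { carrier := {p | ∀ n : K, p.2 * R n * p.2⁻¹ = R ⟨p.1 * n * p.1⁻¹, hK.conj_mem _ n.2 p.1⟩}
      one_mem' := by
        intro n
        simp
      mul_mem' := by
        intro p q hp hq n
        have h1 := hp ⟨q.1 * n * q.1⁻¹, hK.conj_mem _ n.2 q.1⟩
        rw [← hq n] at h1
        have h2 : (p * q).2 * R n * (p * q).2⁻¹ = p.2 * (q.2 * R n * q.2⁻¹) * p.2⁻¹ := by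
          simp only [Prod.snd_mul]
          group
        rw [h2, h1]
        congr 1
        refine Subtype.ext ?_
        simp only [Prod.fst_mul]
        group
      inv_mem' := by
        intro p hp n
        have h1 := hp ⟨p.1⁻¹ * n * p.1⁻¹⁻¹, hK.conj_mem _ n.2 p.1⁻¹⟩
        have h2 : (⟨p.1 * (p.1⁻¹ * n * p.1⁻¹⁻¹) * p.1⁻¹,
            hK.conj_mem _ (hK.conj_mem _ n.2 p.1⁻¹) p.1⟩ : K) = n := by
          refine Subtype.ext ?_
          show p.1 * (p.1⁻¹ * n * p.1⁻¹⁻¹) * p.1⁻¹ = n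
          group
        have h3 : p.2 * R ⟨p.1⁻¹ * n * p.1⁻¹⁻¹, hK.conj_mem _ n.2 p.1⁻¹⟩ * p.2⁻¹ = R n := by
          rw [h1]
          exact congrArg R h2
        show p.2⁻¹ * R n * p.2⁻¹⁻¹ = R ⟨p.1⁻¹ * n * p.1⁻¹⁻¹, hK.conj_mem _ n.2 p.1⁻¹⟩
        rw [← h3]
        group }
  have hD : ∀ (j : ℤ) (n : K), T ^ j * R n =
      R ⟨s ^ j * n * (s ^ j)⁻¹, hK.conj_mem _ n.2 (s ^ j)⟩ * T ^ j := by
    intro j n
    have h1 : ((s, T) : H × Γ) ∈ D := hb
    have h2 := D.zpow_mem h1 j n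
    simp only [Prod.pow_fst, Prod.pow_snd] at h2
    rw [← h2]
    group
  have hex : ∀ h : H, ∃ (j : ℤ) (n : K), h = n * s ^ j := by
    intro h
    obtain ⟨k, hk⟩ := ha h
    refine ⟨-k, ⟨h * s ^ k, ?_⟩, ?_⟩
    · have := hK.conj_mem _ hk (s ^ (-k))
      have e : s ^ (-k) * (s ^ k * h) * (s ^ (-k))⁻¹ = h * s ^ k := by group
      rwa [e] at this
    · show h = h * s ^ k * s ^ (-k)
      group
  choose j n hjn using hex
  have key : ∀ (h : H) (i : ℤ) (a : K), h = a * s ^ i → R (n h) * T ^ (j h) = R a * T ^ i := by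
    intro h i a hh
    have h1 : (s ^ (i - j h) : H) = (a : H)⁻¹ * n h := by
      have h2 : (a : H) * s ^ i = n h * s ^ (j h) := by rw [← hh, ← hjn h]
      calc s ^ (i - j h) = (a : H)⁻¹ * (a * s ^ i) * s ^ (-(j h)) := by
            rw [zpow_sub]; group
        _ = (a : H)⁻¹ * n h := by rw [h2]; group
    have h3 : s ^ (i - j h) ∈ K := by
      rw [h1]
      exact K.mul_mem (K.inv_mem a.2) (n h).2
    have h4 := hc _ h3
    have h5 : (⟨s ^ (i - j h), h3⟩ : K) = a⁻¹ * n h := Subtype.ext h1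
    rw [h5, map_mul, map_inv] at h4
    have h6 : R (n h) = R a * T ^ (i - j h) := by
      rw [h4]
      group
    rw [h6, mul_assoc, ← zpow_add]
    congr 2
    ring
  refine ⟨MonoidHom.mk' (fun h => R (n h) * T ^ (j h)) ?_, ?_⟩
  · intro x y
    have h1 := key (x * y) (j x + j y)
      (n x * ⟨s ^ (j x) * n y * (s ^ (j x))⁻¹, hK.conj_mem _ (n y).2 (s ^ (j x))⟩) (by
        conv_lhs => rw [hjn x, hjn y]
        push_cast
        group)
    show R (n (x * y)) * T ^ (j (x * y)) = R (n x) * T ^ (j x) * (R (n y) * T ^ (j y))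
    rw [h1, map_mul, zpow_add]
    have h2 := hD (j x) (n y)
    calc R (n x) * R ⟨s ^ (j x) * n y * (s ^ (j x))⁻¹, hK.conj_mem _ (n y).2 (s ^ (j x))⟩ *
          (T ^ j x * T ^ j y)
        = R (n x) * (R ⟨s ^ (j x) * n y * (s ^ (j x))⁻¹, hK.conj_mem _ (n y).2 (s ^ (j x))⟩ *
          T ^ j x) * T ^ j y := by group
      _ = R (n x) * (T ^ j x * R (n y)) * T ^ j y := by rw [← h2]
      _ = R (n x) * T ^ j x * (R (n y) * T ^ j y) := by group
  · intro a
    have := key a 0 a (by simp)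
    show R (n a) * T ^ (j a) = R a
    rw [this]
    simp

/-- a representation is irreducible if its restriction is -/
theorem B7_irr {H : Type} [Group H] (K : Subgroup H) {V : Type} [AddCommGroup V] [Module ℂ V]
    (ρ : Representation ℂ K V) (hρ : ρ.IsIrreducible) (π : Representation ℂ H V)
    (h : ∀ n : K, π n = ρ n) : π.IsIrreducible := by
  have hnt : Nontrivial V := by
    by_contra hV
    rw [not_nontrivial_iff_subsingleton] at hV
    obtain ⟨a, b, hab⟩ := hρ.toNontrivial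
    refine hab ?_
    refine Subrepresentation.ext ?_
    exact Subsingleton.elim _ _
  refine { exists_pair_ne := ⟨⊥, ⊤, fun hbt => ?_⟩, eq_bot_or_eq_top := fun W => ?_ }
  · have h1 : (⊥ : Submodule ℂ V) = ⊤ := congrArg Subrepresentation.toSubmodule hbt
    exact bot_ne_top h1
  · let W' : Subrepresentation ρ := ⟨W.toSubmodule, fun n v hv => by
      rw [← h n]
      exact W.apply_mem_toSubmodule n hv⟩
    rcases hρ.eq_bot_or_eq_top W' with h1 | h1
    · left
      have h2 : W'.toSubmodule = ⊥ := by rw [h1]; rfl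
      exact Subrepresentation.ext h2
    · right
      have h2 : W'.toSubmodule = ⊤ := by rw [h1]; rfl
      exact Subrepresentation.ext h2

/-- B7 -/
theorem B7 : B7_stmt := by
  classical
  intro H _ _ K hKc ψ hψ hinv
  obtain ⟨hK, s, hs⟩ := hKc
  obtain ⟨hψ0, V, iV, iM, iF, ρ, hirr, hchar⟩ := hψ
  have : Fintype K := Fintype.ofFinite K
  have hcardne : (Nat.card K : ℂ) ≠ 0 := by
    exact_mod_cast Nat.card_pos.ne'
  have : Invertible (Nat.card K : ℂ) := invertibleOfNonzero hcardne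
  -- the conjugate representation
  let cs : K →* K := (MulAut.conjNormal s : MulAut K).toMonoidHom
  have hcs : ∀ n : K, ((cs n : K) : H) = s * n * s⁻¹ := fun n => MulAut.conjNormal_apply s n
  let σ : Representation ℂ K V := ρ.comp cs
  have hσc : σ.character = ρ.character := by
    funext n
    show ρ.character (cs n) = ρ.character n
    rw [hchar]
    show ψ (cs n : K) = ψ n
    rw [hcs]
    have h1 := congrFun (hinv s⁻¹) (n : H)
    simp only [funMap, map_inv, inv_inv, MulAut.conj_apply] at h1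
    exact h1
  have hfr : Module.finrank ℂ (ρ.IntertwiningMap σ) = 1 := by
    have h1 := Representation.card_inv_mul_sum_char_mul_char_eq_finrank ρ σ
    rw [hσc, Representation.card_inv_mul_sum_char_mul_char_eq_finrank ρ ρ,
      Representation.IsIrreducible.finrank_intertwiningMap_self] at h1
    exact_mod_cast h1.symm
  have hnt : Nontrivial (ρ.IntertwiningMap σ) := by
    refine Module.nontrivial_of_finrank_pos (R := ℂ) ?_
    rw [hfr]
    exact one_pos
  obtain ⟨f, hf⟩ := exists_ne (0 : ρ.IntertwiningMap σ)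
  have hinj : Function.Injective f :=
    (Representation.IsIrreducible.injective_or_eq_zero f).resolve_right hf
  have hinj' : Function.Injective f.toLinearMap := hinj
  have hu : IsUnit (f.toLinearMap : Module.End ℂ V) :=
    (LinearMap.isUnit_iff_ker_eq_bot _).2 (LinearMap.ker_eq_bot.2 hinj')
  obtain ⟨T₀, hT₀⟩ := hu
  let R : K →* (Module.End ℂ V)ˣ := MonoidHom.toHomUnits ρ
  have hR : ∀ n, ((R n : (Module.End ℂ V)ˣ) : Module.End ℂ V) = ρ n := fun n => rfl
  have hT₀c : ∀ n : K, T₀ * R n = R (cs n) * T₀ := by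
    intro n
    refine Units.ext ?_
    rw [Units.val_mul, Units.val_mul, hR, hR, hT₀]
    exact f.isIntertwining' n
  have hT₀s : ∀ n : K, T₀ * R n = R ⟨s * n * s⁻¹, hK.conj_mem _ n.2 s⟩ * T₀ := by
    intro n
    rw [hT₀c]
    congr 2
  -- the order of `s` modulo `K`
  set m : ℕ := orderOf (QuotientGroup.mk s : H ⧸ K) with hm
  have hm0 : 0 < m := orderOf_pos _
  have hmem : ∀ i : ℤ, s ^ i ∈ K ↔ (m : ℤ) ∣ i := by
    intro i
    rw [hm, orderOf_dvd_iff_zpow_eq_one, ← QuotientGroup.mk_zpow, QuotientGroup.eq_one_iff]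
  have hsm : s ^ m ∈ K := by
    have := (hmem m).2 dvd_rfl
    rwa [zpow_natCast] at this
  -- powers of `T₀`
  have hT₀p : ∀ (k : ℕ) (n : K), T₀ ^ k * R n =
      R ⟨s ^ k * n * (s ^ k)⁻¹, hK.conj_mem _ n.2 (s ^ k)⟩ * T₀ ^ k := by
    intro k
    induction k with
    | zero =>
      intro n
      simp
    | succ k ih =>
      intro n
      have e : (⟨s * (s ^ k * n * (s ^ k)⁻¹) * s⁻¹,
          hK.conj_mem _ (hK.conj_mem _ n.2 (s ^ k)) s⟩ : K) =
          ⟨s ^ (k + 1) * n * (s ^ (k + 1))⁻¹, hK.conj_mem _ n.2 (s ^ (k + 1))⟩ := by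
        refine Subtype.ext ?_
        show s * (s ^ k * n * (s ^ k)⁻¹) * s⁻¹ = s ^ (k + 1) * n * (s ^ (k + 1))⁻¹
        rw [pow_succ']
        group
      calc T₀ ^ (k + 1) * R n = T₀ * (T₀ ^ k * R n) := by rw [pow_succ', mul_assoc]
        _ = T₀ * R ⟨s ^ k * n * (s ^ k)⁻¹, hK.conj_mem _ n.2 (s ^ k)⟩ * T₀ ^ k := by
          rw [ih n]
          exact (mul_assoc _ _ _).symm
        _ = R ⟨s ^ (k + 1) * n * (s ^ (k + 1))⁻¹, hK.conj_mem _ n.2 (s ^ (k + 1))⟩ * T₀ *
            T₀ ^ k := by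
          rw [hT₀s, ← e]
        _ = R ⟨s ^ (k + 1) * n * (s ^ (k + 1))⁻¹, hK.conj_mem _ n.2 (s ^ (k + 1))⟩ *
            T₀ ^ (k + 1) := by
          rw [mul_assoc, ← pow_succ']
  -- Schur
  have hcomm : ∀ n : K, (R ⟨s ^ m, hsm⟩)⁻¹ * T₀ ^ m * R n = R n * ((R ⟨s ^ m, hsm⟩)⁻¹ * T₀ ^ m) := by
    intro n
    have e : (⟨s ^ m * n * (s ^ m)⁻¹, hK.conj_mem _ n.2 (s ^ m)⟩ : K) =
        ⟨s ^ m, hsm⟩ * n * ⟨s ^ m, hsm⟩⁻¹ := rfl
    rw [mul_assoc, hT₀p m n, e, map_mul, map_mul, map_inv]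
    group
  let g : ρ.IntertwiningMap ρ :=
    { toLinearMap := (((R ⟨s ^ m, hsm⟩)⁻¹ * T₀ ^ m : (Module.End ℂ V)ˣ) : Module.End ℂ V)
      isIntertwining' := fun n => congrArg Units.val (hcomm n) }
  obtain ⟨c, hc⟩ :=
    (Representation.IsIrreducible.algebraMap_intertwiningMap_bijective_of_isAlgClosed (ρ := ρ)).2 g
  have hc' : (((R ⟨s ^ m, hsm⟩)⁻¹ * T₀ ^ m : (Module.End ℂ V)ˣ) : Module.End ℂ V) =
      algebraMap ℂ (Module.End ℂ V) c := by
    have h1 := congrArg Representation.IntertwiningMap.toLinearMap hc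
    rw [← show g.toLinearMap = (((R ⟨s ^ m, hsm⟩)⁻¹ * T₀ ^ m : (Module.End ℂ V)ˣ) :
      Module.End ℂ V) from rfl, ← h1]
    rfl
  have hVnt : Nontrivial V := by
    by_contra hV
    rw [not_nontrivial_iff_subsingleton] at hV
    have h2 : f = 0 := by
      refine Representation.IntertwiningMap.ext ?_
      exact Subsingleton.elim _ _
    exact hf h2
  have hc0 : c ≠ 0 := by
    rintro rfl
    rw [map_zero] at hc'
    exact (((R ⟨s ^ m, hsm⟩)⁻¹ * T₀ ^ m : (Module.End ℂ V)ˣ)).ne_zero hc'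
  obtain ⟨e, he⟩ := IsAlgClosed.exists_pow_nat_eq c⁻¹ hm0
  have he0 : e ≠ 0 := by
    rintro rfl
    rw [zero_pow hm0.ne'] at he
    exact inv_ne_zero hc0 he.symm
  -- rescale
  let eu : (Module.End ℂ V)ˣ := Units.map (algebraMap ℂ (Module.End ℂ V)).toMonoidHom
    (Units.mk0 e he0)
  have heu : ∀ x : (Module.End ℂ V)ˣ, eu * x = x * eu := by
    intro x
    refine Units.ext ?_
    exact Algebra.commutes e _
  have hT1 : (eu * T₀) ^ m = R ⟨s ^ m, hsm⟩ := by
    have h1 : (eu * T₀) ^ m = eu ^ m * T₀ ^ m := (show Commute eu T₀ from heu T₀).mul_pow m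
    have h2 : eu ^ m * ((R ⟨s ^ m, hsm⟩)⁻¹ * T₀ ^ m) = 1 := by
      refine Units.ext ?_
      rw [Units.val_mul, hc']
      have h3 : ((eu ^ m : (Module.End ℂ V)ˣ) : Module.End ℂ V) =
          algebraMap ℂ (Module.End ℂ V) (e ^ m) := by
        rw [Units.val_pow_eq_pow_val, map_pow]
        rfl
      rw [h3, ← map_mul, he, inv_mul_cancel₀ hc0, map_one]
      rfl
    have h4 : eu ^ m * (R ⟨s ^ m, hsm⟩)⁻¹ = (R ⟨s ^ m, hsm⟩)⁻¹ * eu ^ m :=
      (show Commute eu _ from heu _).pow_left m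
    rw [h1]
    rw [← mul_assoc, h4, mul_assoc] at h2
    rw [← one_mul (eu ^ m * T₀ ^ m), ← mul_inv_cancel (R ⟨s ^ m, hsm⟩), mul_assoc, h2, mul_one]
  obtain ⟨F, hF⟩ := B7_ext K hK R s (eu * T₀) hs (fun n => by
      rw [mul_assoc eu, hT₀s n, ← mul_assoc, heu]
      group) (fun j hj => by
      obtain ⟨k, rfl⟩ := (hmem j).1 hj
      have e1 : (⟨s ^ ((m : ℤ) * k), hj⟩ : K) = ⟨s ^ m, hsm⟩ ^ k := by
        refine Subtype.ext ?_
        push_cast
        rw [zpow_mul, zpow_natCast]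
      rw [e1, map_zpow, zpow_mul, zpow_natCast, hT1])
  let π : Representation ℂ H V := (Units.coeHom (Module.End ℂ V)).comp F
  have hπ : ∀ n : K, π n = ρ n := fun n => by
    show ((F n : (Module.End ℂ V)ˣ) : Module.End ℂ V) = ρ n
    rw [hF]
    exact hR n
  refine ⟨π.character, ⟨V, iV, iM, iF, π, B7_irr K ρ hirr π hπ, rfl⟩, fun x hx => ?_⟩
  have h1 := congrFun hchar ⟨x, hx⟩
  exact (congrArg (LinearMap.trace ℂ V) (hπ ⟨x, hx⟩)).trans h1

end Pool.Agent.DI
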